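import Mathlib
import Pool.Agent.HGP.P_ADD
import Pool.Agent.HGP.P_AMN
import Pool.Agent.HGP.P_ASM
import Pool.Agent.HGP.P_AUT
import Pool.Agent.HGP.P_AW
import Pool.Agent.HGP.P_BI0
import Pool.Agent.HGP.P_BIG
import Pool.Agent.HGP.P_C0T
import Pool.Agent.HGP.P_CAT
import Pool.Agent.HGP.P_CF
import Pool.Agent.HGP.P_CJG
import Pool.Agent.HGP.P_CLS
import Pool.Agent.HGP.P_DECL
import Pool.Agent.HGP.P_DECR
import Pool.Agent.HGP.P_DEN
import Pool.Agent.HGP.P_ET0
import Pool.Agent.HGP.P_EV
import Pool.Agent.HGP.P_EXP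
import Pool.Agent.HGP.P_EXT
import Pool.Agent.HGP.P_FIN
import Pool.Agent.HGP.P_GNSX
import Pool.Agent.HGP.P_HAA
import Pool.Agent.HGP.P_INH
import Pool.Agent.HGP.P_KGA
import Pool.Agent.HGP.P_KGB
import Pool.Agent.HGP.P_LC
import Pool.Agent.HGP.P_LEN
import Pool.Agent.HGP.P_LEV
import Pool.Agent.HGP.P_LNX
import Pool.Agent.HGP.P_MOV
import Pool.Agent.HGP.P_MU
import Pool.Agent.HGP.P_NST
import Pool.Agent.HGP.P_POS
import Pool.Agent.HGP.P_POW
import Pool.Agent.HGP.P_PQ
import Pool.Agent.HGP.P_PQT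
import Pool.Agent.HGP.P_PRE
import Pool.Agent.HGP.P_RK
import Pool.Agent.HGP.P_ROO
import Pool.Agent.HGP.P_RTP
import Pool.Agent.HGP.P_RTS
import Pool.Agent.HGP.P_SCH
import Pool.Agent.HGP.P_SP
import Pool.Agent.HGP.P_STEP
import Pool.Agent.HGP.P_SUR
import Pool.Agent.HGP.P_SYS
import Pool.Agent.HGP.P_TREE
import Pool.Agent.HGP.P_UNV
import Pool.Agent.HGP.P_VAD
import Pool.Agent.HGP.P_VOP
import Pool.Agent.HGP.P_WI
import Pool.Agent.HGP.P_WP
import Pool.Agent.HGP.P_XI
import Pool.Agent.HGP.P_ZAM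

set_option autoImplicit false

/-!
# The Haagerup property for one-relator groups with cyclic Magnus hierarchies

The class `Relator` of relators is generated by the relators `x₁ x₀ ^ k` (infinite cyclic groups), by
the relators of amenable groups with generators of infinite order and by the relators of groups with
the Haagerup property in which all generators survive in homomorphisms to `ℤ`, under inversion,
conjugation, a new free generator, automorphisms of the free group after which every generator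
survives or is a conjugate of a power of an old generator, the substitutions
`x_j ↦ x_j x_i ^ p x_j⁻¹` (an HNN extension along an infinite cyclic subgroup) and `x_i ↦ x_i ^ k`
(adjoining a root). It contains all Baumslag-Solitar groups, all Baumslag-Gersten groups
`⟨a, t | (t a ^ p t⁻¹) a ^ m (t a ^ p t⁻¹)⁻¹ = a ^ n⟩` and their iterates.
-/

namespace Pool.Agent.Results.MP_34a894_al.CyclicHierarchies

/-- the Haagerup property: a metrically proper action by affine isometries on a real Hilbert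
space -/
def HasHaagerup (G : Type) [Group G] : Prop :=
  ∃ (E : Type) (_ : NormedAddCommGroup E) (_ : InnerProductSpace ℝ E) (_ : CompleteSpace E)
    (ρ : G →* (E ≃ᵃⁱ[ℝ] E)), ∀ B : Set E, Bornology.IsBounded B →
      {g : G | ((fun v => ρ g v) '' B ∩ B).Nonempty}.Finite

/-- amenability (Folner's condition) -/
def Amenable (G : Type) [Group G] : Prop :=
  ∀ (S : Finset G) (ε : ℝ), 0 < ε → ∃ F : Set G, F.Finite ∧ F.Nonempty ∧
    ∀ s ∈ S, (((fun x => s * x) '' F \ F).ncard : ℝ) ≤ ε * F.ncard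

/-- the one-relator group `⟨x₀, ..., x_{n-1} | r⟩` -/
abbrev Grp {n : ℕ} (r : FreeGroup (Fin n)) : Type :=
  PresentedGroup ({r} : Set (FreeGroup (Fin n)))

/-- its generators -/
def gen {n : ℕ} (r : FreeGroup (Fin n)) (i : Fin n) : Grp r := PresentedGroup.of i

/-- the generator survives in a homomorphism to the integers -/
def Survives {n : ℕ} (r : FreeGroup (Fin n)) (i : Fin n) : Prop :=
  ∃ β : Grp r →* Multiplicative ℤ, β (gen r i) ≠ 1

/-- substitution of `v` for the letter `x_j` -/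
def subst {n : ℕ} (j : Fin n) (v r : FreeGroup (Fin n)) : FreeGroup (Fin n) :=
  FreeGroup.lift (Function.update FreeGroup.of j v) r

/-- the class of relators -/
inductive Relator : (n : ℕ) → FreeGroup (Fin n) → Prop
  /-- `⟨x₀, x₁ | x₁ x₀ ^ k⟩` -/
  | letter (k : ℤ) : k ≠ 0 → Relator 2 (FreeGroup.of 1 * FreeGroup.of 0 ^ k)
  /-- amenable groups -/
  | amenable (n : ℕ) (r : FreeGroup (Fin n)) : Amenable (Grp r) →
      (∀ i, ¬ IsOfFinOrder (gen r i)) → Relator n r
  /-- groups with the Haagerup property in which the generators survive -/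
  | haagerup (n : ℕ) (r : FreeGroup (Fin n)) : HasHaagerup (Grp r) → (∀ i, Survives r i) →
      Relator n r
  /-- conjugation of the relator -/
  | conj (n : ℕ) (r g : FreeGroup (Fin n)) : Relator n r → Relator n (g * r * g⁻¹)
  /-- inversion of the relator -/
  | inv (n : ℕ) (r : FreeGroup (Fin n)) : Relator n r → Relator n r⁻¹
  /-- a new free generator -/
  | add (n : ℕ) (r : FreeGroup (Fin n)) : Relator n r →
      Relator (n + 1) (FreeGroup.map Fin.castSucc r)
  /-- automorphisms of the free group -/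
  | aut (n : ℕ) (r : FreeGroup (Fin n)) (f : FreeGroup (Fin n) ≃* FreeGroup (Fin n)) :
      Relator n r → (∀ i, Survives (f r) i ∨
        ∃ (j : Fin n) (k : ℤ) (g : FreeGroup (Fin n)), k ≠ 0 ∧
          f.symm (FreeGroup.of i) = g * FreeGroup.of j ^ k * g⁻¹) → Relator n (f r)
  /-- an HNN extension along an infinite cyclic subgroup -/
  | hnn (n : ℕ) (r : FreeGroup (Fin n)) (i j : Fin n) (p : ℤ) : i ≠ j → p ≠ 0 → Relator n r →
      Relator n (subst j (FreeGroup.of j * FreeGroup.of i ^ p * (FreeGroup.of j)⁻¹) r)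
  /-- adjoining a root -/
  | root (n : ℕ) (r : FreeGroup (Fin n)) (i : Fin n) (k : ℤ) : k ≠ 0 → Relator n r →
      Relator n (subst i (FreeGroup.of i ^ k) r)

open HGP in
lemma cln_of_relator {n : ℕ} {r : FreeGroup (Fin n)} (h : Relator n r) : Cln n r := by
  induction h with
  | letter k hk =>
    obtain ⟨h1, h2, h3⟩ := p_ZAM (-k) (neg_ne_zero.2 hk)
    rw [neg_neg] at h1 h2 h3
    refine Cln.amen 2 _ h1 fun i => ?_
    fin_cases i
    · exact h2
    · exact h3
  | amenable n r h1 h2 => exact Cln.amen n r h1 h2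
  | haagerup n r h1 h2 => exact Cln.haag n r h1 h2
  | conj n r g _ ih => exact Cln.conj n r g ih
  | inv n r _ ih => exact Cln.inv n r ih
  | add n r _ ih => exact Cln.add n r ih
  | aut n r f _ hf ih => exact Cln.aut n r f ih hf
  | hnn n r i j p hij hp _ ih => exact Cln.hnn n r i j p hij hp ih
  | root n r i k hk _ ih => exact Cln.root n r i k hk ih

open HGP in
lemma haagerup_of_cln : T_M0 := by
  have hLEN := p_LEN
  have hLN : T_LN := LNX hLEN
  have hCAT := p_CAT hLEN hLN
  have hTREE := p_TREE hCAT hLN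
  have hDECL := p_DECL hLEN
  have hDECR := p_DECR hDECL hLN
  have hWP := p_WP hLEN hLN
  have hSYS := p_SYS p_EV
  have hSP := p_SP hWP p_WI hLN hDECL
  have hPOS := p_POS hSP hTREE hDECL hLN
  have hLC := p_LC hSP hDECR hLN
  have hGNS : T_GNS := GNSX
  have hC0T := p_C0T p_DEN
  have hMU := p_MU p_PQT
  have hVOP := p_VOP p_CF
  have hVAD := p_VAD p_DEN
  have hXI := p_XI (p_STEP p_CF hMU) p_ET0
  have hBIG := p_BIG hXI hVOP hVAD hMU p_PQT hC0T p_PQ p_LEV
  have hKGA := p_KGA hSP
  have hKGB := p_KGB p_DEN p_PQ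
  have hASM := p_ASM hSYS hSP hPOS hGNS hLC p_AW hKGA hKGB p_PQ
  have hINH := p_INH hBIG hASM p_UNV
  have hIN0 : T_IN0 := fun H _ φ l h => hASM H ⊥ ⊥ φ l (fun S ε hε => p_BI0 H φ l h S ε hε)
  have hSUR := p_SUR p_PQ p_DEN p_PQT hC0T
  have hROO := p_ROO p_PQ
  have hSCH := p_SCH p_EXP hGNS hKGB
  have hEXT := p_EXT hSUR p_POW (p_CJG p_PQ) p_SBL
  have hNST := p_NST p_PRE p_PRS hINH p_POW hSUR p_SVT p_RK p_TRA p_SBL p_QINF
  have hRTS := p_RTS p_RTP hIN0 hINH p_SVT p_TRA p_RES hROO p_SBL p_QINF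
  have hADG := p_ADG p_ADD p_SVT hIN0 hSUR p_TRA p_SBL
  have hAUT := p_AUT p_MOV p_TRA hEXT p_SBL
  have hCLS := p_CLS (p_AMN p_DEN) hSCH hEXT hNST hRTS hADG hAUT p_MOV p_TRA p_SBL
  exact p_M0 hCLS p_HAA p_SBL

lemma haagerup_sub {G G' : Type} [Group G] [Group G'] (f : G' →* G)
    (hf : Function.Injective f) (h : HasHaagerup G) : HasHaagerup G' := by
  obtain ⟨E, i1, i2, i3, ρ, hρ⟩ := h
  refine ⟨E, i1, i2, i3, ρ.comp f, fun B hB => ?_⟩
  exact (hρ B hB).preimage (f := f) hf.injOn

/-- **The Haagerup property for one-relator groups with cyclic Magnus hierarchies**, and for all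
their subgroups. -/
theorem result : ∀ (n : ℕ) (r : FreeGroup (Fin n)), Relator n r →
    ∀ (G : Type) [Group G] (f : G →* Grp r), Function.Injective f → HasHaagerup G := by
  intro n r hr G _ f hf
  exact haagerup_sub f hf (haagerup_of_cln n r (cln_of_relator hr))

end Pool.Agent.Results.MP_34a894_al.CyclicHierarchies
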