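import Mathlib
import Pool.Agent.HGP2.Main
import Pool.Agent.HGP2.P_SQ

set_option autoImplicit false

/-!
# The Haagerup property for one-relator groups with finite or cyclic splittings

The class `GroupClass` of groups contains all groups with a proper axial action (in particular the
finite groups) and is closed under subgroups and finite kernels, directed unions, extensions by `ℤ`,
and HNN extensions with finite or cyclic edge groups. The class `Relator` contains the relators of the
one-relator groups in this class and all relators with a letter occurring once or twice, and is closed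
under all automorphisms of the free group, `x_j ↦ x_j u x_j⁻¹` and `x_j ↦ w`.
-/

namespace Pool.Agent.Results.MP_34a894_al.CyclicSplittings

/-- the Haagerup property: a metrically proper action by affine isometries on a real Hilbert
space -/
def HasHaagerup (G : Type) [Group G] : Prop :=
  ∃ (E : Type) (_ : NormedAddCommGroup E) (_ : InnerProductSpace ℝ E) (_ : CompleteSpace E)
    (ρ : G →* (E ≃ᵃⁱ[ℝ] E)), ∀ B : Set E, Bornology.IsBounded B →
      {g : G | ((fun v => ρ g v) '' B ∩ B).Nonempty}.Finite

/-- `G` acts on a set `X` preserving a conditionally negative definite kernel `d` with values in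
the natural numbers, properly, and for every element `c` of infinite order there is a point `x`
with `d (c ^ n • x) x = ℓ |n|` for all integers `n`, with `ℓ ≥ 1` -/
def Axial (G : Type) [Group G] : Prop :=
  ∃ (X : Type) (_ : MulAction G X) (x₀ : X) (d : X → X → ℕ), (∀ x, d x x = 0) ∧
    (∀ x y, d x y = d y x) ∧ (∀ (g : G) (x y : X), d (g • x) (g • y) = d x y) ∧
    (∀ (n : ℕ) (x : Fin n → X) (c : Fin n → ℝ), ∑ i, c i = 0 →
      ∑ i, ∑ j, c i * c j * (d (x i) (x j) : ℝ) ≤ 0) ∧
    (∀ R : ℕ, {g : G | d (g • x₀) x₀ ≤ R}.Finite) ∧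
    ∀ c : G, ¬ IsOfFinOrder c → ∃ (x : X) (ℓ : ℕ), 1 ≤ ℓ ∧
      ∀ n : ℤ, d (c ^ n • x) x = ℓ * n.natAbs

/-- the class of groups -/
inductive GroupClass : (G : Type) → [Group G] → Prop
  /-- groups with a proper axial action, in particular finite groups -/
  | axial (G : Type) [Group G] : Axial G → GroupClass G
  /-- homomorphisms with finite kernel, in particular subgroups -/
  | pull (G G' : Type) [Group G] [Group G'] (f : G →* G') : Finite f.ker → GroupClass G' →
      GroupClass G
  /-- directed unions: every finite subset lies in a subgroup of the class -/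
  | union (G : Type) [Group G] (H : Finset G → Type) [∀ S, Group (H S)]
      (f : ∀ S, H S →* G) : (∀ S, Function.Injective (f S)) → (∀ S, ∀ s ∈ S, s ∈ (f S).range) →
      (∀ S, GroupClass (H S)) → GroupClass G
  /-- extensions by the integers -/
  | ext (N : Type) [Group N] (φ : Multiplicative ℤ →* MulAut N) : GroupClass N →
      GroupClass (N ⋊[φ] Multiplicative ℤ)
  /-- HNN extensions with finite or cyclic edge groups -/
  | hnn (H : Type) [Group H] (A B : Subgroup H) (φ : A ≃* B) : (Finite A ∨ IsCyclic A) →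
      GroupClass H → GroupClass (HNNExtension H A B φ)

/-- the one-relator group `⟨x₀, ..., x_{n-1} | r⟩` -/
abbrev Grp {n : ℕ} (r : FreeGroup (Fin n)) : Type :=
  PresentedGroup ({r} : Set (FreeGroup (Fin n)))

/-- the words in the letters of `J` -/
def Words {n : ℕ} (J : Set (Fin n)) : Subgroup (FreeGroup (Fin n)) :=
  Subgroup.closure (FreeGroup.of '' J)

/-- substitution of `v` for the letter `x_j` -/
def subst {n : ℕ} (j : Fin n) (v r : FreeGroup (Fin n)) : FreeGroup (Fin n) :=
  FreeGroup.lift (Function.update FreeGroup.of j v) r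

/-- the class of relators -/
inductive Relator : (n : ℕ) → FreeGroup (Fin n) → Prop
  /-- the relators of groups of the class `GroupClass` -/
  | group (n : ℕ) (r : FreeGroup (Fin n)) : GroupClass (Grp r) → Relator n r
  /-- a letter occurs once: `u x_j v` -/
  | once (n : ℕ) (j : Fin n) (u v : FreeGroup (Fin n)) : u ∈ Words {j}ᶜ → v ∈ Words {j}ᶜ →
      Relator n (u * FreeGroup.of j * v)
  /-- a letter occurs twice: `x_j u x_j⁻¹ v` -/
  | opposite (n : ℕ) (j : Fin n) (u v : FreeGroup (Fin n)) : u ∈ Words {j}ᶜ →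
      v ∈ Words {j}ᶜ → u ≠ 1 → v ≠ 1 →
      Relator n (FreeGroup.of j * u * (FreeGroup.of j)⁻¹ * v)
  /-- a letter occurs twice: `x_j u x_j v` -/
  | same (n : ℕ) (j : Fin n) (u v : FreeGroup (Fin n)) : u ∈ Words {j}ᶜ →
      v ∈ Words {j}ᶜ → Relator n (FreeGroup.of j * u * FreeGroup.of j * v)
  /-- conjugation of the relator -/
  | conj (n : ℕ) (r g : FreeGroup (Fin n)) : Relator n r → Relator n (g * r * g⁻¹)
  /-- inversion of the relator -/
  | inv (n : ℕ) (r : FreeGroup (Fin n)) : Relator n r → Relator n r⁻¹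
  /-- a new free generator -/
  | add (n : ℕ) (r : FreeGroup (Fin n)) : Relator n r →
      Relator (n + 1) (FreeGroup.map Fin.castSucc r)
  /-- automorphisms of the free group -/
  | aut (n : ℕ) (r : FreeGroup (Fin n)) (f : FreeGroup (Fin n) ≃* FreeGroup (Fin n)) :
      Relator n r → Relator n (f r)
  /-- `x_j ↦ x_j u x_j⁻¹`, where `u` is a word in the other letters and `u`, `x_j` have infinite
  order in the group of `r` -/
  | hnn (n : ℕ) (r : FreeGroup (Fin n)) (j : Fin n) (u : FreeGroup (Fin n)) :
      u ∈ Words {j}ᶜ → ¬ IsOfFinOrder (PresentedGroup.mk {r} u : Grp r) →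
      ¬ IsOfFinOrder (PresentedGroup.of j : Grp r) → Relator n r →
      Relator n (subst j (FreeGroup.of j * u * (FreeGroup.of j)⁻¹) r)
  /-- `x_j ↦ w`, where `w ≠ 1` is a word in letters of which at most `x_j` occurs in `r` and
  `x_j` has infinite order in the group of `r` -/
  | pinch (n : ℕ) (r : FreeGroup (Fin n)) (j : Fin n) (J : Set (Fin n))
      (w : FreeGroup (Fin n)) : j ∈ J → w ∈ Words J → w ≠ 1 → r ∈ Words (Jᶜ ∪ {j}) →
      ¬ IsOfFinOrder (PresentedGroup.of j : Grp r) → Relator n r → Relator n (subst j w r)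

lemma cyc_of_class {G : Type} [Group G] (h : GroupClass G) : HGQ.Cyc G := by
  induction h with
  | axial G h => exact HGQ.Cyc.axial G h
  | pull G G' f hf _ ih => exact HGQ.Cyc.pull G G' f hf ih
  | union G H f h1 h2 _ ih => exact HGQ.Cyc.union G H f h1 h2 ih
  | ext N φ _ ih => exact HGQ.Cyc.ext N φ ih
  | hnn H A B φ h1 _ ih => exact HGQ.Cyc.hnn H A B φ h1 ih

lemma good_of_relator {n : ℕ} {r : FreeGroup (Fin n)} (h : Relator n r) :
    HGQ.Good (Grp r) := by
  induction h with
  | group n r h => exact HGQ.mGCY _ (cyc_of_class h)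
  | once n j u v hu hv =>
    obtain ⟨f, hf, -, -⟩ := HGQ.p_ONC n j u v hu hv
    exact HGQ.Good.inj HGQ.mGKE f hf (HGQ.mGFR n)
  | opposite n j u v hu hv h1 h2 => exact HGQ.mOPP n j u v hu hv h1 h2
  | same n j u v hu hv => exact HGQ.good_same n j u v hu hv
  | conj n r g _ ih =>
    obtain ⟨e, -⟩ := HGQ.kMOV.2.1 n r g
    exact HGQ.Good.inj HGQ.mGKE e.symm.toMonoidHom e.symm.injective ih
  | inv n r _ ih =>
    obtain ⟨e, -⟩ := HGQ.kMOV.2.2 n r
    exact HGQ.Good.inj HGQ.mGKE e.symm.toMonoidHom e.symm.injective ih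
  | add n r _ ih =>
    obtain ⟨φ, e, -, -⟩ := HGQ.kADD n r
    exact HGQ.Good.inj HGQ.mGKE e.toMonoidHom e.injective
      (HGQ.mGHN (Grp r) ⊥ ⊥ φ (Or.inl inferInstance) ih)
  | aut n r f _ ih =>
    obtain ⟨e, -⟩ := HGQ.kMOV.1 n r f
    exact HGQ.Good.inj HGQ.mGKE e.symm.toMonoidHom e.symm.injective ih
  | hnn n r j u hu h1 h2 _ ih =>
    obtain ⟨θ, ⟨e⟩⟩ := HGQ.p_PRU n r j u hu h1 h2
    exact HGQ.Good.inj HGQ.mGKE e.toMonoidHom e.injective
      (HGQ.mGHN (Grp r) _ _ θ (Or.inr inferInstance) ih)
  | pinch n r j J w h1 h2 h3 h4 h5 _ ih => exact HGQ.mGPI n r j J w h1 h2 h3 h4 h5 ih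

/-- **The Haagerup property for one-relator groups with finite or cyclic splittings**, and for all
their subgroups. -/
theorem result : ∀ (n : ℕ) (r : FreeGroup (Fin n)), Relator n r →
    ∀ (G : Type) [Group G] (f : G →* Grp r), Function.Injective f → HasHaagerup G := by
  intro n r hr G _ f hf
  have : Countable (Grp r) := Quotient.countable
  have : Countable G := hf.countable
  exact HGQ.p_GHA G (HGQ.Good.inj HGQ.mGKE f hf (good_of_relator hr))

end Pool.Agent.Results.MP_34a894_al.CyclicSplittings
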